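import Mathlib
import Pool.Agent.H16.Blocks

namespace Pool.Agent.Results.MP_5e3dfa_co.Order

open Finset Pool.Agent.H16.Blocks

/-- an intersecting family of `n/2`-element subsets -/
def HalfInter (n : ℕ) (F : Finset (Finset (Fin n))) : Prop :=
  (∀ A ∈ F, A.card = n / 2) ∧ ∀ A ∈ F, ∀ B ∈ F, (A ∩ B).Nonempty

/-- a maximal intersecting family of `n/2`-element subsets -/
def MaxHalfInter (n : ℕ) (F : Finset (Finset (Fin n))) : Prop :=
  HalfInter n F ∧ ∀ A : Finset (Fin n), A ∉ F → ¬ HalfInter n (insert A F)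

/-- `F` shatters some system of `k` pairwise disjoint `r`-element sets -/
def ShattersSome (n r k : ℕ) (F : Finset (Finset (Fin n))) : Prop :=
  ∃ M : Finset (Finset (Fin n)), M.card = k ∧ (∀ A ∈ M, A.card = r) ∧
    (∀ A ∈ M, ∀ B ∈ M, A ≠ B → Disjoint A B) ∧
    ∀ c : Finset (Fin n) → Fin n, (∀ A ∈ M, c A ∈ A) →
      ∃ S ∈ F, S ∩ M.biUnion id = M.image c

/-- `k_r(n)` -/
noncomputable def kr (r n : ℕ) : ℕ :=
  sSup {k : ℕ | ∀ F : Finset (Finset (Fin n)), MaxHalfInter n F → ShattersSome n r k F}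

theorem upper (n r k : ℕ) (hn : Even n) (hn4 : 4 ≤ n) (hr : 3 ≤ r)
    (h : ∀ F : Finset (Finset (Fin n)), MaxHalfInter n F → ShattersSome n r k F) :
    2 * (r - 1) * k ≤ n := by
  classical
  obtain ⟨F, h0, h1⟩ := Set.exists_max_image {F : Finset (Finset (Fin n)) | HalfInter n F}
    card (Set.toFinite _) ⟨∅, by simp [HalfInter]⟩
  obtain ⟨M, m1, m2, m3, m4⟩ := h F ⟨h0, fun A hA hI => by
    have := h1 _ hI
    rw [card_insert_of_notMem hA] at this
    omega⟩
  have hc : ∀ A : Finset (Fin n), ∃ x : Fin n, A ∈ M → x ∈ A := by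
    intro A
    by_cases hA : A ∈ M
    · obtain ⟨x, hx⟩ := card_pos.1 (show 0 < A.card by rw [m2 A hA]; omega)
      exact ⟨x, fun _ => hx⟩
    · exact ⟨⟨0, by omega⟩, fun h => absurd h hA⟩
  choose c hc using hc
  obtain ⟨S, hS, e⟩ := m4 c hc
  have e1 := card_bU r M m2 m3
  have e2 := card_choice M c hc m3
  have e3 := card_union_add_card_inter S (M.biUnion id)
  have e4 : (S ∪ M.biUnion id).card ≤ n := (card_le_univ _).trans (by simp)
  rw [e, e1, e2, h0.1 S hS, m1] at e3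
  obtain ⟨t, rfl⟩ : ∃ t, r = t + 1 := ⟨r - 1, by omega⟩
  obtain ⟨m, rfl⟩ := hn
  rw [Nat.add_sub_cancel, mul_assoc]
  rw [Nat.succ_mul] at e3
  omega

theorem lower (n r : ℕ) (hn : Even n) (hn4 : 4 ≤ n) (hr : 3 ≤ r)
    (F : Finset (Finset (Fin n))) (hF : MaxHalfInter n F) : ShattersSome n r (n / (2 * r)) F := by
  obtain ⟨k, hk⟩ : ∃ k, k = n / (2 * r) := ⟨_, rfl⟩
  have hk2 : 2 * (r * k) ≤ n := by rw [hk, ← mul_assoc]; exact Nat.mul_div_le _ _
  rw [← hk]
  obtain ⟨m, hm⟩ := hn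
  have hm2 : n / 2 = m := by omega
  by_contra hc
  obtain ⟨Y, -, hY⟩ := exists_subset_card_eq (s := (univ : Finset (Fin n))) (n := m)
    (by simp; omega)
  have hY' : Yᶜ.card = m := by rw [card_compl, hY]; simp; omega
  obtain ⟨M1, a1, a2, a3, a4⟩ := exists_blocks r (by omega) k Y (by omega)
  obtain ⟨M2, b1, b2, b3, b4⟩ := exists_blocks r (by omega) k Yᶜ (by omega)
  unfold ShattersSome at hc
  push Not at hc
  obtain ⟨c1, a5, a6⟩ := hc M1 a1 a2 a3
  obtain ⟨c2, b5, b6⟩ := hc M2 b1 b2 b3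
  have u1 := card_bU r M1 a2 a3
  have u2 := card_bU r M2 b2 b3
  have t1 := card_choice M1 c1 a5 a3
  have t2 := card_choice M2 c2 b5 b3
  have s1 := choice_sub M1 c1 a5
  have s2 := choice_sub M2 c2 b5
  have y1 : M1.biUnion id ⊆ Y := biUnion_subset.2 a4
  have y2 : M2.biUnion id ⊆ Yᶜ := biUnion_subset.2 b4
  rw [a1] at u1 t1
  rw [b1] at u2 t2
  generalize M1.biUnion id = U1 at *
  generalize M2.biUnion id = U2 at *
  generalize M1.image c1 = T1 at *
  generalize M2.image c2 = T2 at *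
  have d : ∀ x, x ∈ U1 → x ∈ U2 → False := fun x h1 h2 => mem_compl.1 (y2 h2) (y1 h1)
  have l1 := card_le_card s1
  have c1 : (U1 \ T1 ∪ T2).card ≤ m := by
    have := Finset.card_union_le (U1 \ T1) T2
    rw [card_sdiff_of_subset s1] at this
    omega
  have c2 : m ≤ (U2 \ T2 ∪ T1)ᶜ.card := by
    have := Finset.card_union_le (U2 \ T2) T1
    rw [card_sdiff_of_subset s2] at this
    rw [card_compl, Fintype.card_fin]
    omega
  obtain ⟨G, g1, g2, g3⟩ := exists_subsuperset_card_eq (s := U1 \ T1 ∪ T2) (t := (U2 \ T2 ∪ T1)ᶜ)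
    (by
      intro x hx
      simp only [mem_union, mem_sdiff, mem_compl, not_or, not_and, not_not] at hx ⊢
      rcases hx with hx | hx
      · exact ⟨fun h => (d x hx.1 h).elim, hx.2⟩
      · exact ⟨fun _ => hx, fun h => d x (s1 h) (s2 hx)⟩) c1 c2
  have hG : G ∉ F := by
    intro h
    apply b6 G h
    ext x
    simp only [mem_inter]
    constructor
    · rintro ⟨h1, h2⟩
      have := g2 h1
      simp only [mem_union, mem_sdiff, mem_compl, not_or, not_and, not_not] at this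
      exact this.1 h2
    · intro h1
      exact ⟨g1 (mem_union_right _ h1), s2 h1⟩
  have hG' : Gᶜ ∉ F := by
    intro h
    apply a6 _ h
    ext x
    simp only [mem_inter, mem_compl]
    constructor
    · rintro ⟨h1, h2⟩
      by_contra h3
      exact h1 (g1 (mem_union_left _ (mem_sdiff.2 ⟨h2, h3⟩)))
    · intro h1
      exact ⟨fun h2 => mem_compl.1 (g2 h2) (mem_union_right _ h1), s1 h1⟩
  have key : ∀ B ∈ F, (G ∩ B).Nonempty := by
    intro B hB
    by_contra h
    apply hG'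
    have h1 : B ⊆ Gᶜ := fun x hx => mem_compl.2 fun h2 => h ⟨x, mem_inter.2 ⟨h2, hx⟩⟩
    rwa [← eq_of_subset_of_card_le h1 (by
      rw [card_compl, g3, hF.1.1 B hB, Fintype.card_fin]; omega)]
  apply hF.2 G hG
  constructor
  · intro A hA
    rcases mem_insert.1 hA with rfl | hA
    · omega
    · exact hF.1.1 A hA
  · intro A hA B hB
    rcases mem_insert.1 hA with rfl | hA' <;> rcases mem_insert.1 hB with rfl | hB'
    · rw [inter_self]; exact card_pos.1 (by omega)
    · exact key B hB'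
    · rw [inter_comm]; exact key A hA'
    · exact hF.1.2 A hA' B hB'

theorem result (n r : ℕ) (hn : Even n) (hn4 : 4 ≤ n) (hr : 3 ≤ r) :
    n / (2 * r) ≤ kr r n ∧ 2 * (r - 1) * kr r n ≤ n := by
  have hb : BddAbove {k : ℕ | ∀ F : Finset (Finset (Fin n)),
      MaxHalfInter n F → ShattersSome n r k F} := by
    refine ⟨n, fun k hk => ?_⟩
    have := upper n r k hn hn4 hr hk
    have h2 : 1 * k ≤ 2 * (r - 1) * k := Nat.mul_le_mul_right _ (by omega)
    omega
  exact ⟨le_csSup hb (lower n r hn hn4 hr),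
    upper n r _ hn hn4 hr (Nat.sSup_mem ⟨n / (2 * r), by exact lower n r hn hn4 hr⟩ hb)⟩

end Pool.Agent.Results.MP_5e3dfa_co.Order
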